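import Pool.Agent.Y80.KM.CharDefs

set_option autoImplicit false

/-! Existence and uniqueness of the Kashuba-Mathieu pair (job KMEX of project KM, adapted from
`Pool.Agent.Y80.Shang.Exist`). -/

namespace Pool.Agent.Y85.KM

open Pool.Agent.Y80.KM

open MvPowerSeries

/-- the character of the adjoint module -/
noncomputable def adjC : TorusChar := 1 + (wtj 1 + wtj (-1))

theorem wtj_mul (a b : ℤ) : wtj a * wtj b = wtj (a + b) := by
  rw [wtj, wtj, wtj, AddMonoidAlgebra.single_mul_single, one_mul]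

theorem wtj_zero : wtj 0 = 1 := rfl

theorem coeff_wtj (a m : ℤ) : (wtj a).coeff m = if a = m then 1 else 0 := by
  rw [wtj, AddMonoidAlgebra.coeff_single, Finsupp.single_apply]

theorem mult_add (μ : ℤ) (f g : TorusChar) : multj μ (f + g) = multj μ f + multj μ g := by
  simp [multj, add_mul]

/-- additive map version -/
noncomputable def multHom (μ : ℤ) : TorusChar →+ ℤ where
  toFun := multj μ
  map_zero' := by simp [multj]
  map_add' := mult_add μ

theorem multHom_apply (μ : ℤ) (f : TorusChar) : multHom μ f = multj μ f := rfl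

theorem mult_smul (μ : ℤ) (c : ℤ) (f : TorusChar) : multj μ (c • f) = c * multj μ f := by
  rw [← multHom_apply, map_zsmul]; simp [multHom_apply]

theorem mult_one0 : multj 0 1 = 1 := by
  rw [multj, one_mul, ← wtj_zero, AddMonoidAlgebra.coeff_sub, Finsupp.sub_apply, coeff_wtj,
    coeff_wtj]
  norm_num

theorem mult_one1 : multj 1 1 = 0 := by
  rw [multj, one_mul, ← wtj_zero, AddMonoidAlgebra.coeff_sub, Finsupp.sub_apply, coeff_wtj,
    coeff_wtj]
  norm_num

theorem adjC_mul : adjC * (1 - wtj (-1)) = wtj 1 - wtj (-2) := by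
  have h1 : wtj 1 * wtj (-1) = 1 := by rw [wtj_mul]; norm_num [wtj_zero]
  have h2 : wtj (-1) * wtj (-1) = wtj (-2) := by rw [wtj_mul]; norm_num
  rw [adjC, ← h2]
  linear_combination -h1

theorem mult_adj0 : multj 0 adjC = 0 := by
  rw [multj, adjC_mul, AddMonoidAlgebra.coeff_sub, Finsupp.sub_apply, coeff_wtj, coeff_wtj]
  norm_num

theorem mult_adj1 : multj 1 adjC = 1 := by
  rw [multj, adjC_mul, AddMonoidAlgebra.coeff_sub, Finsupp.sub_apply, coeff_wtj, coeff_wtj]
  norm_num

variable {d : ℕ}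


/-- series without terms below `β` -/
def lowIdeal (β : Fin d →₀ ℕ) : Ideal (CharJ d) where
  carrier := {f | ∀ γ ≤ β, coeff γ f = 0}
  zero_mem' := by intro γ _; simp
  add_mem' := by
    intro f g hf hg γ hγ
    simp [hf γ hγ, hg γ hγ]
  smul_mem' := by
    intro c f hf γ hγ
    rw [smul_eq_mul, coeff_mul]
    apply Finset.sum_eq_zero
    intro x hx
    rw [Finset.HasAntidiagonal.mem_antidiagonal] at hx
    rw [hf x.2 (le_trans (by rw [← hx]; exact le_add_self) hγ), mul_zero]

theorem mem_lowIdeal (β : Fin d →₀ ℕ) (f : CharJ d) :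
    f ∈ lowIdeal β ↔ ∀ γ ≤ β, coeff γ f = 0 := Iff.rfl

/-- `f ≡ 1 - c x^α` up to terms not below `β` -/
def Lin (β α : Fin d →₀ ℕ) (f : CharJ d) (c : TorusChar) : Prop :=
  Ideal.Quotient.mk (lowIdeal β) f =
    1 - Ideal.Quotient.mk (lowIdeal β) (C c) * Ideal.Quotient.mk (lowIdeal β) (monomial α 1)

theorem sq_zero (β α : Fin d →₀ ℕ) (h : ¬ (α + α ≤ β)) :
    Ideal.Quotient.mk (lowIdeal β) (monomial α (1 : TorusChar)) *
      Ideal.Quotient.mk (lowIdeal β) (monomial α 1) = 0 := by
  rw [← map_mul, Ideal.Quotient.eq_zero_iff_mem, mem_lowIdeal]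
  intro γ hγ
  rw [monomial_mul_monomial, coeff_monomial, if_neg]
  rintro rfl
  exact h hγ

theorem Lin.one (β α : Fin d →₀ ℕ) : Lin β α 1 0 := by
  simp [Lin]

theorem Lin.mul {β α : Fin d →₀ ℕ} (h : ¬ (α + α ≤ β)) {f g : CharJ d} {c e : TorusChar}
    (hf : Lin β α f c) (hg : Lin β α g e) : Lin β α (f * g) (c + e) := by
  have hX := sq_zero β α h
  unfold Lin at *
  rw [map_mul, hf, hg, map_add, map_add]
  linear_combination (Ideal.Quotient.mk (lowIdeal β) (C c)) *
    (Ideal.Quotient.mk (lowIdeal β) (C e)) * hX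

theorem Lin.pow {β α : Fin d →₀ ℕ} (h : ¬ (α + α ≤ β)) {f : CharJ d} {c : TorusChar}
    (hf : Lin β α f c) (n : ℕ) : Lin β α (f ^ n) (n * c) := by
  induction n with
  | zero => simpa using Lin.one β α
  | succ n ih =>
    rw [pow_succ]
    have := Lin.mul h ih hf
    convert this using 1
    push_cast
    ring

theorem Lin.inv {β α : Fin d →₀ ℕ} (h : ¬ (α + α ≤ β)) {f : CharJ d} {c : TorusChar}
    (hf : Lin β α f c) (h1 : constantCoeff f = 1) : Lin β α (invOfUnit f 1) (-c) := by
  have hX := sq_zero β α h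
  have hi : invOfUnit f 1 * f = 1 := invOfUnit_mul f 1 (by simpa using h1)
  have hi' := congrArg (Ideal.Quotient.mk (lowIdeal β)) hi
  unfold Lin at *
  rw [map_mul, hf, map_one (Ideal.Quotient.mk (lowIdeal β))] at hi'
  rw [map_neg C, map_neg (Ideal.Quotient.mk (lowIdeal β))]
  linear_combination (1 + Ideal.Quotient.mk (lowIdeal β) (C c) *
      Ideal.Quotient.mk (lowIdeal β) (monomial α 1)) * hi' +
    Ideal.Quotient.mk (lowIdeal β) (invOfUnit f 1) *
      (Ideal.Quotient.mk (lowIdeal β) (C c)) ^ 2 * hX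

theorem Lin.zpw {β α : Fin d →₀ ℕ} (h : ¬ (α + α ≤ β)) {f : CharJ d} {c : TorusChar}
    (hf : Lin β α f c) (h1 : constantCoeff f = 1) (n : ℤ) :
    Lin β α (zpw f n) (n * c) := by
  unfold Pool.Agent.Y80.KM.zpw
  split_ifs with hn
  · have := Lin.pow h hf n.toNat
    convert this using 2
    rw [← Int.cast_natCast, Int.toNat_of_nonneg hn]
  · have := Lin.pow h (Lin.inv h hf h1) (-n).toNat
    convert this using 1
    rw [← Int.cast_natCast, Int.toNat_of_nonneg (by omega)]
    push_cast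
    ring

theorem lin_lamOne (β α : Fin d →₀ ℕ) (μ : ℤ) : Lin β α (lamOne α μ) (wtj μ) := by
  unfold Lin lamOne
  rw [map_sub, map_one (Ideal.Quotient.mk (lowIdeal β)), ← map_mul]
  congr 2
  ext γ
  simp [coeff_monomial]

theorem constantCoeff_lamOne {α : Fin d →₀ ℕ} (hα : α ≠ 0) (μ : ℤ) :
    constantCoeff (lamOne α μ) = 1 := by
  rw [lamOne, map_sub, map_one, ← coeff_zero_eq_constantCoeff_apply, coeff_monomial,
    if_neg (Ne.symm hα), sub_zero]

theorem lin_lamTerm {β α : Fin d →₀ ℕ} (h : ¬ (α + α ≤ β)) (p q : ℤ) :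
    Lin β α (lamTerm α p q) (p * adjC + q) := by
  have hα : α ≠ 0 := by
    rintro rfl
    apply h
    rw [add_zero]
    exact bot_le
  have L : ∀ (μ : ℤ) (n : ℤ), Lin β α (zpw (lamOne α μ) n) (n * wtj μ) :=
    fun μ n => Lin.zpw h (lin_lamOne β α μ) (constantCoeff_lamOne hα μ) n
  unfold lamTerm
  have := Lin.mul h (L 0 (p + q)) (Lin.mul h (L 1 p) (L (-1) p))
  convert this using 1
  simp only [wtj_zero, adjC]
  push_cast
  ring

theorem coeff_lin_mul {β α : Fin d →₀ ℕ} {f : CharJ d} {c : TorusChar} (hf : Lin β α f c)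
    (G : CharJ d) :
    coeff β (f * G) = coeff β G - if α ≤ β then c * coeff (β - α) G else 0 := by
  have h1 : f - (1 - monomial α c) ∈ lowIdeal β := by
    rw [← Ideal.Quotient.eq_zero_iff_mem, map_sub, hf]
    rw [map_sub (Ideal.Quotient.mk (lowIdeal β)), map_one (Ideal.Quotient.mk (lowIdeal β)),
      ← map_mul]
    have : C c * monomial α (1 : TorusChar) = (monomial α c : CharJ d) := by
      ext γ
      simp [coeff_monomial]
    rw [this, sub_self]
  have h2 : (f - (1 - monomial α c)) * G ∈ lowIdeal β := Ideal.mul_mem_right _ _ h1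
  have h3 := h2 β le_rfl
  have h4 : (f - (1 - monomial α c)) * G = f * G - G + monomial α c * G := by ring
  rw [h4, map_add, map_sub, coeff_monomial_mul] at h3
  linear_combination h3

theorem coeff_lamTerm_mul {β α : Fin d →₀ ℕ} (h : ¬ (α + α ≤ β)) (p q : ℤ) (G : CharJ d) :
    coeff β (lamTerm α p q * G) =
      coeff β G - if α ≤ β then (p * adjC + q) * coeff (β - α) G else 0 :=
  coeff_lin_mul (lin_lamTerm h p q) G

theorem constantCoeff_lamTerm {α : Fin d →₀ ℕ} (hα : α ≠ 0) (p q : ℤ) :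
    constantCoeff (lamTerm α p q) = 1 := by
  have h : ¬ (α + α ≤ 0) := by
    intro h
    apply hα
    have : α ≤ 0 := le_trans le_self_add h
    exact le_antisymm this bot_le
  have := coeff_lamTerm_mul h p q 1
  rw [mul_one, if_neg (fun h' => hα (le_antisymm h' bot_le))] at this
  simpa using this

/-- factors with exponent not below `β` do not matter -/
theorem coeff_prod_irrelevant {β : Fin d →₀ ℕ} (F : (Fin d →₀ ℕ) → ℤ × ℤ)
    (s : Finset (Fin d →₀ ℕ)) (hs : ∀ α ∈ s, ¬ α ≤ β) (G : CharJ d) :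
    coeff β ((∏ α ∈ s, lamTerm α (F α).1 (F α).2) * G) = coeff β G := by
  classical
  induction s using Finset.induction_on with
  | empty => simp
  | insert α s ha ih =>
    rw [Finset.prod_insert ha, mul_assoc]
    have hα : ¬ α ≤ β := hs α (Finset.mem_insert_self _ _)
    rw [coeff_lamTerm_mul (fun h => hα (le_trans le_self_add h)), if_neg hα, sub_zero]
    exact ih fun x hx => hs x (Finset.mem_insert_of_mem hx)

theorem coeff_prod_filter {β : Fin d →₀ ℕ} (F : (Fin d →₀ ℕ) → ℤ × ℤ)
    (s : Finset (Fin d →₀ ℕ)) [DecidablePred fun α : Fin d →₀ ℕ => α ≤ β] :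
    coeff β (∏ α ∈ s, lamTerm α (F α).1 (F α).2) =
      coeff β (∏ α ∈ s with α ≤ β, lamTerm α (F α).1 (F α).2) := by
  rw [← Finset.prod_filter_not_mul_prod_filter s (fun α => α ≤ β)]
  exact coeff_prod_irrelevant F _ (by intro α hα; exact (Finset.mem_filter.mp hα).2) _

theorem mult_sub (μ : ℤ) (f g : TorusChar) : multj μ (f - g) = multj μ f - multj μ g := by
  simp [multj, sub_mul]

theorem mult_lin0 (x y : ℤ) : multj 0 ((x : TorusChar) * adjC + y) = y := by
  have e : (x : TorusChar) * adjC + y = x • adjC + y • (1 : TorusChar) := by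
    simp [zsmul_eq_mul]
  rw [e, mult_add, mult_smul, mult_smul, mult_adj0, mult_one0]
  ring

theorem mult_lin1 (x y : ℤ) : multj 1 ((x : TorusChar) * adjC + y) = x := by
  have e : (x : TorusChar) * adjC + y = x • adjC + y • (1 : TorusChar) := by
    simp [zsmul_eq_mul]
  rw [e, mult_add, mult_smul, mult_smul, mult_adj1, mult_one1]
  ring

/-- the part of `phi` coming from lower coefficients -/
noncomputable def low (F : (Fin d →₀ ℕ) → ℤ × ℤ) (β : Fin d →₀ ℕ) : TorusChar :=
  coeff β (∏ α ∈ ((Finset.Icc 0 β).erase 0).erase β, lamTerm α (F α).1 (F α).2)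

theorem low_congr (F G : (Fin d →₀ ℕ) → ℤ × ℤ) (β : Fin d →₀ ℕ)
    (h : ∀ α, α < β → α ≠ 0 → F α = G α) : low F β = low G β := by
  have e : ∏ α ∈ ((Finset.Icc 0 β).erase 0).erase β, lamTerm α (F α).1 (F α).2 =
      ∏ α ∈ ((Finset.Icc 0 β).erase 0).erase β, lamTerm α (G α).1 (G α).2 := by
    refine Finset.prod_congr rfl fun α hα => ?_
    rw [Finset.mem_erase, Finset.mem_erase, Finset.mem_Icc] at hα
    rw [h α (lt_of_le_of_ne hα.2.2.2 hα.1) hα.2.1]
  rw [low, low, e]

theorem not_add_self_le {β : Fin d →₀ ℕ} (hβ : β ≠ 0) : ¬ (β + β ≤ β) := by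
  intro h
  apply hβ
  ext i
  have := h i
  simp only [Finsupp.add_apply] at this
  simp only [Finsupp.coe_zero, Pi.zero_apply]
  omega

theorem phi_eq_low (a b : MvPowerSeries (Fin d) ℤ) (β : Fin d →₀ ℕ) (hβ : β ≠ 0) :
    phi a b β = low (fun α => (coeff α a, coeff α b)) β - (coeff β a * adjC + coeff β b) := by
  have hmem : β ∈ (Finset.Icc 0 β).erase 0 :=
    Finset.mem_erase.mpr ⟨hβ, Finset.mem_Icc.mpr ⟨bot_le, le_rfl⟩⟩
  rw [phi, ← Finset.mul_prod_erase _ _ hmem, coeff_lamTerm_mul (not_add_self_le hβ),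
    if_pos le_rfl, tsub_self, low]
  have : coeff (0 : Fin d →₀ ℕ) (∏ α ∈ ((Finset.Icc 0 β).erase 0).erase β,
      lamTerm α (coeff α a) (coeff α b)) = 1 := by
    rw [coeff_zero_eq_constantCoeff_apply, map_prod]
    apply Finset.prod_eq_one
    intro α hα
    rw [Finset.mem_erase, Finset.mem_erase] at hα
    exact constantCoeff_lamTerm hα.2.1 _ _
  rw [this, mul_one]

theorem phi_zero (a b : MvPowerSeries (Fin d) ℤ) : phi a b 0 = 1 := by
  simp [phi]

open Classical in
/-- the solution -/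
noncomputable def sol (β : Fin d →₀ ℕ) : ℤ × ℤ :=
  if β = 0 then (0, 0) else
    (multj 1 (coeff β (∏ α : {x // x ∈ ((Finset.Icc 0 β).erase 0).erase β},
        lamTerm α.1 (sol α.1).1 (sol α.1).2)) + (if ∃ i, β = Finsupp.single i 1 then 1 else 0),
      multj 0 (coeff β (∏ α : {x // x ∈ ((Finset.Icc 0 β).erase 0).erase β},
        lamTerm α.1 (sol α.1).1 (sol α.1).2)))
  termination_by ∑ i, β i
  decreasing_by
    all_goals
      obtain ⟨α, hα⟩ := α
      simp only
      rw [Finset.mem_erase, Finset.mem_erase, Finset.mem_Icc] at hα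
      obtain ⟨h1, -, -, h4⟩ := hα
      apply Finset.sum_lt_sum (fun i _ => h4 i)
      by_contra hcon
      push Not at hcon
      apply h1
      ext i
      exact le_antisymm (h4 i) (hcon i (Finset.mem_univ i))

open Classical in
theorem sol_eq (β : Fin d →₀ ℕ) (hβ : β ≠ 0) : sol β =
    (multj 1 (low sol β) + (if ∃ i, β = Finsupp.single i 1 then 1 else 0),
      multj 0 (low sol β)) := by
  have h : (∏ α : {x // x ∈ ((Finset.Icc 0 β).erase 0).erase β},
        lamTerm α.1 (sol α.1).1 (sol α.1).2) =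
      ∏ α ∈ ((Finset.Icc 0 β).erase 0).erase β, lamTerm α (sol α).1 (sol α).2 :=
    Finset.prod_coe_sort (((Finset.Icc 0 β).erase 0).erase β)
      (fun α => lamTerm α (sol α).1 (sol α).2)
  rw [sol, if_neg hβ, h, low]

theorem sol_zero : sol (0 : Fin d →₀ ℕ) = (0, 0) := by rw [sol, if_pos rfl]

/-- the four conditions without symmetry -/
structure IsSol (a b : MvPowerSeries (Fin d) ℤ) : Prop where
  zero_a : coeff 0 a = 0
  zero_b : coeff 0 b = 0
  trivial_part : ∀ β, multj 0 (phi a b β) = if β = 0 then 1 else 0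
  adjoint_part : ∀ β, multj 1 (phi a b β) =
    if ∃ i, β = Finsupp.single i 1 then -1 else 0

theorem isSol_iff (a b : MvPowerSeries (Fin d) ℤ) : IsSol a b ↔
    ∀ β, (coeff β a, coeff β b) = sol β := by
  classical
  have key : ∀ (β : Fin d →₀ ℕ), β ≠ 0 → (∀ α, α < β → (coeff α a, coeff α b) = sol α) →
      ((multj 0 (phi a b β) = if β = 0 then 1 else 0) ∧
        (multj 1 (phi a b β) = if ∃ i, β = Finsupp.single i 1 then -1 else 0) ↔
        (coeff β a, coeff β b) = sol β) := by
    intro β hβ hlow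
    rw [phi_eq_low a b β hβ, low_congr _ sol β (fun α h _ => hlow α h), mult_sub, mult_sub,
      mult_lin0, mult_lin1, if_neg hβ, sol_eq β hβ, Prod.mk.injEq]
    constructor
    · rintro ⟨h1, h2⟩
      refine ⟨?_, by linarith⟩
      split_ifs at h2 ⊢ <;> linarith
    · rintro ⟨h1, h2⟩
      refine ⟨by linarith, ?_⟩
      split_ifs at h1 ⊢ <;> linarith
  constructor
  · intro h β
    induction β using WellFoundedLT.induction with
    | _ β ih =>
      by_cases hβ : β = 0
      · subst hβ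
        rw [sol_zero, h.zero_a, h.zero_b]
      · exact (key β hβ ih).mp ⟨h.trivial_part β, h.adjoint_part β⟩
  · intro h
    have h0 := h 0
    rw [sol_zero, Prod.mk.injEq] at h0
    refine ⟨h0.1, h0.2, ?_, ?_⟩
    · intro β
      by_cases hβ : β = 0
      · subst hβ
        rw [phi_zero, if_pos rfl, mult_one0]
      · exact ((key β hβ (fun α _ => h α)).mpr (h β)).1
    · intro β
      by_cases hβ : β = 0
      · subst hβ
        rw [phi_zero, if_neg, mult_one1]
        rintro ⟨i, hi⟩
        have := DFunLike.congr_fun hi i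
        simp at this
      · exact ((key β hβ (fun α _ => h α)).mpr (h β)).2

/-- permuting the variables -/
noncomputable def permZ (σ : Equiv.Perm (Fin d)) (a : MvPowerSeries (Fin d) ℤ) :
    MvPowerSeries (Fin d) ℤ := fun α => coeff (α.mapDomain σ) a

theorem coeff_permZ (σ : Equiv.Perm (Fin d)) (a : MvPowerSeries (Fin d) ℤ) (α : Fin d →₀ ℕ) :
    coeff α (permZ σ a) = coeff (α.mapDomain σ) a := rfl

theorem rename_invOfUnit (σ : Equiv.Perm (Fin d)) (f : CharJ d) (h1 : constantCoeff f = 1) :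
    rename σ (invOfUnit f 1) = invOfUnit (rename σ f) 1 := by
  have e1 : invOfUnit f 1 * f = 1 := invOfUnit_mul f 1 (by simpa using h1)
  have e2 : rename σ f * invOfUnit (rename σ f) 1 = 1 :=
    mul_invOfUnit _ 1 (by rw [constantCoeff_rename]; simpa using h1)
  have e3 := congrArg (rename σ) e1
  rw [map_mul, map_one (rename σ)] at e3
  calc rename σ (invOfUnit f 1) = rename σ (invOfUnit f 1) *
      (rename σ f * invOfUnit (rename σ f) 1) := by rw [e2, mul_one]
    _ = _ := by rw [← mul_assoc, e3, one_mul]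

theorem rename_zpw (σ : Equiv.Perm (Fin d)) (f : CharJ d) (h1 : constantCoeff f = 1) (n : ℤ) :
    rename σ (zpw f n) = zpw (rename σ f) n := by
  unfold zpw
  split_ifs
  · rw [map_pow]
  · rw [map_pow, rename_invOfUnit σ f h1]

theorem rename_lamOne (σ : Equiv.Perm (Fin d)) (α : Fin d →₀ ℕ) (μ : ℤ) :
    rename σ (lamOne α μ) = lamOne (α.mapDomain σ) μ := by
  rw [lamOne, map_sub, map_one (rename σ), rename_monomial, lamOne]

theorem rename_lamTerm (σ : Equiv.Perm (Fin d)) {α : Fin d →₀ ℕ} (hα : α ≠ 0) (p q : ℤ) :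
    rename σ (lamTerm α p q) = lamTerm (α.mapDomain σ) p q := by
  unfold lamTerm
  simp only [map_mul, rename_zpw σ _ (constantCoeff_lamOne hα _), rename_lamOne]

theorem coeff_rename_perm (σ : Equiv.Perm (Fin d)) (f : CharJ d) (β : Fin d →₀ ℕ) :
    coeff (β.mapDomain σ) (rename σ f) = coeff β f := by
  have := coeff_embDomain_rename σ.toEmbedding f β
  rw [Finsupp.embDomain_eq_mapDomain] at this
  exact this

theorem mapDomain_le (σ : Equiv.Perm (Fin d)) {α β : Fin d →₀ ℕ} (h : α ≤ β) :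
    α.mapDomain σ ≤ β.mapDomain σ := by
  intro i
  have e : i = σ (σ.symm i) := by simp
  rw [e, Finsupp.mapDomain_apply σ.injective, Finsupp.mapDomain_apply σ.injective]
  exact h _

theorem mapDomain_symm (σ : Equiv.Perm (Fin d)) (α : Fin d →₀ ℕ) :
    (α.mapDomain σ.symm).mapDomain σ = α := by
  rw [← Finsupp.mapDomain_comp]
  simp

theorem mapDomain_symm' (σ : Equiv.Perm (Fin d)) (α : Fin d →₀ ℕ) :
    (α.mapDomain σ).mapDomain σ.symm = α := by
  rw [← Finsupp.mapDomain_comp]
  simp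

theorem mapDomain_zero_iff (σ : Equiv.Perm (Fin d)) (α : Fin d →₀ ℕ) :
    α.mapDomain σ = 0 ↔ α = 0 := by
  constructor
  · intro h
    rw [← mapDomain_symm' σ α, h, Finsupp.mapDomain_zero]
  · rintro rfl
    exact Finsupp.mapDomain_zero

theorem phi_perm (σ : Equiv.Perm (Fin d)) (a b : MvPowerSeries (Fin d) ℤ) (β : Fin d →₀ ℕ) :
    phi (permZ σ a) (permZ σ b) β = phi a b (β.mapDomain σ) := by
  classical
  rw [phi, ← coeff_rename_perm σ, map_prod, phi]
  congr 1
  refine Finset.prod_nbij' (fun α => α.mapDomain σ) (fun α => α.mapDomain σ.symm) ?_ ?_ ?_ ?_ ?_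
  · intro α hα
    rw [Finset.mem_erase, Finset.mem_Icc] at hα ⊢
    exact ⟨fun h => hα.1 ((mapDomain_zero_iff σ α).mp h), bot_le, mapDomain_le σ hα.2.2⟩
  · intro α hα
    rw [Finset.mem_erase, Finset.mem_Icc] at hα ⊢
    refine ⟨fun h => hα.1 ((mapDomain_zero_iff σ.symm α).mp h), bot_le, ?_⟩
    have := mapDomain_le σ.symm hα.2.2
    rwa [mapDomain_symm'] at this
  · intro α _; exact mapDomain_symm' σ α
  · intro α _; exact mapDomain_symm σ α
  · intro α hα
    rw [Finset.mem_erase] at hα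
    rw [rename_lamTerm σ hα.1, coeff_permZ, coeff_permZ]

theorem IsSol.perm {a b : MvPowerSeries (Fin d) ℤ} (h : IsSol a b) (σ : Equiv.Perm (Fin d)) :
    IsSol (permZ σ a) (permZ σ b) := by
  refine ⟨?_, ?_, ?_, ?_⟩
  · rw [coeff_permZ, Finsupp.mapDomain_zero, h.zero_a]
  · rw [coeff_permZ, Finsupp.mapDomain_zero, h.zero_b]
  · intro β
    rw [phi_perm, h.trivial_part]
    simp only [mapDomain_zero_iff]
  · intro β
    rw [phi_perm, h.adjoint_part]
    have : (∃ i, β.mapDomain σ = Finsupp.single i 1) ↔ ∃ i, β = Finsupp.single i 1 := by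
      constructor
      · rintro ⟨i, hi⟩
        refine ⟨σ.symm i, ?_⟩
        rw [← mapDomain_symm' σ β, hi, Finsupp.mapDomain_single]
      · rintro ⟨i, rfl⟩
        exact ⟨σ i, Finsupp.mapDomain_single⟩
    simp only [this]

theorem IsSol.unique {a b a' b' : MvPowerSeries (Fin d) ℤ} (h : IsSol a b) (h' : IsSol a' b') :
    a = a' ∧ b = b' := by
  rw [isSol_iff] at h h'
  constructor
  · ext β
    have := (h β).trans (h' β).symm
    exact (Prod.mk.inj this).1
  · ext β
    have := (h β).trans (h' β).symm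
    exact (Prod.mk.inj this).2

theorem isKMPair_iff (a b : MvPowerSeries (Fin d) ℤ) : IsKMPair a b ↔ IsSol a b := by
  constructor
  · intro h
    exact ⟨h.aug_a.1, h.aug_b.1, h.trivial_part, h.adjoint_part⟩
  · intro h
    refine ⟨⟨h.zero_a, ?_⟩, ⟨h.zero_b, ?_⟩, h.trivial_part, h.adjoint_part⟩
    · intro σ α
      have := (IsSol.unique h (h.perm σ)).1
      conv_rhs => rw [this]
      rfl
    · intro σ α
      have := (IsSol.unique h (h.perm σ)).2
      conv_rhs => rw [this]
      rfl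

/-- the first component of the solution -/
noncomputable def solA (d : ℕ) : MvPowerSeries (Fin d) ℤ := fun β => (sol β).1

/-- the second component of the solution -/
noncomputable def solB (d : ℕ) : MvPowerSeries (Fin d) ℤ := fun β => (sol β).2

theorem isSol_sol (d : ℕ) : IsSol (solA d) (solB d) := by
  rw [isSol_iff]
  intro β
  rfl

theorem existsUnique_pair (d : ℕ) :
    ∃! p : MvPowerSeries (Fin d) ℤ × MvPowerSeries (Fin d) ℤ, IsKMPair p.1 p.2 := by
  refine ⟨(solA d, solB d), (isKMPair_iff _ _).mpr (isSol_sol d), ?_⟩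
  rintro ⟨a, b⟩ h
  have := IsSol.unique ((isKMPair_iff _ _).mp h) (isSol_sol d)
  simp only at this ⊢
  rw [this.1, this.2]

end Pool.Agent.Y85.KM
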